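import Pool.Agent.Helper96.SE.Stmts
import Pool.Agent.Helper58.Grid.Parity

/-! # CLS: each clause contains a docked subcolumn whose block is in state `true`

The proof of `Helper58/Grid/Parity.lean` and `Helper58/Grid/Clause.lean`, for the lattice graph with
tiles (only the columns `x < 5 + 4 * s.length` occur). -/

set_option autoImplicit false

namespace Pool.Agent.Helper96.SE

open Pool.Agent.Helper52.Grid

theorem cls_lt_of_sg {s : List Sub} {k : ℕ} (h : sg s k ≠ none) : k < s.length :=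
  Pool.Agent.Helper58.Grid.lt_of_sg h

theorem cls_toNat_inj {a b : Bool} (h : a.toNat = b.toNat) : a = b :=
  Pool.Agent.Helper58.Grid.toNat_inj h

theorem cls_hC_cell {s : List Sub} {M : ℕ} {T : ℕ → Bool} {k i r j : ℕ} (hk : k < s.length)
    (hi : i < 2 * M + 1) (hr : r < 6) (hj : j < 4) :
    hN s M T (5 + 4 * k + j) (4 + 6 * i + r) = hCell (kind (sg s k) i) r j := by
  rw [hN_old (by omega)]
  exact Pool.Agent.Helper58.Grid.hC_cell hk hi hr hj

theorem cls_hC_top {s : List Sub} {M : ℕ} {T : ℕ → Bool} {k j y : ℕ} (hk : k < s.length)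
    (hj : j < 4) (hy : y < 4) :
    hN s M T (5 + 4 * k + j) y =
      if y = 3 then (if j = 1 ∧ dock (sg s k) = true then 2 else 0)
      else if y = 0 then 4
      else if j = 3 ∧ sg s (k + 1) = none then 4
      else if y = 2 ∧ j = 1 ∧ dock (sg s k) = true then 2
      else 0 := by
  rw [hN_old (by omega)]
  exact Pool.Agent.Helper58.Grid.hC_top hk hj hy

theorem cls_vC_top {s : List Sub} {M : ℕ} {T : ℕ → Bool} {k j y : ℕ} (hk : k < s.length)
    (hj : j < 4) (hy : y < 4) :
    vN s M T (5 + 4 * k + j) y =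
      if y = 0 then 4
      else if y = 1 then
        (if j = 0 ∧ sg s k = none then 0
        else if j = 3 ∧ sg s (k + 1) = none then 0 else 4)
      else (if (j = 1 ∨ j = 2) ∧ dock (sg s k) = true then 2 else 4) := by
  rw [vN_old (by omega)]
  exact Pool.Agent.Helper58.Grid.vC_top hk hj hy

section Use

variable {s : List Sub} {M : ℕ} {T : ℕ → Bool} {hU vU : ℕ → ℕ → Bool} {k v : ℕ}

/-- the ring at a docked subcolumn -/
theorem cls_ring_dock (U : Use (hN s M T) (vN s M T) hU vU) (hd : sg s k = some (v, true)) :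
    (hU (5 + 4 * k + 1) 2).toNat + (vU (5 + 4 * k + 1) 2).toNat = 1 ∧
    (hU (5 + 4 * k + 1) 2).toNat + (vU (5 + 4 * k + 2) 2).toNat = 1 := by
  have hk : k < s.length := cls_lt_of_sg (by rw [hd]; simp)
  have hD : dock (sg s k) = true := by rw [hd]; rfl
  have a1 : hN s M T (5 + 4 * k + 0) 2 = 0 := by
    rw [cls_hC_top hk (by norm_num) (by norm_num)]; simp
  have a2 : hN s M T (5 + 4 * k + 2) 2 = 0 := by
    rw [cls_hC_top hk (by norm_num) (by norm_num)]; simp
  have a3 : vN s M T (5 + 4 * k + 1) 1 = 4 := by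
    rw [cls_vC_top hk (by norm_num) (by norm_num)]; simp
  have a4 : vN s M T (5 + 4 * k + 2) 1 = 4 := by
    rw [cls_vC_top hk (by norm_num) (by norm_num)]; simp
  have b1 : hU (5 + 4 * k + 0) 2 = true := U.h0 _ _ a1
  have b2 : hU (5 + 4 * k + 2) 2 = true := U.h0 _ _ a2
  have b3 : vU (5 + 4 * k + 1) 1 = false := U.v4 _ _ (by rw [a3]; norm_num) (by rw [a3]; norm_num)
  have b4 : vU (5 + 4 * k + 2) 1 = false := U.v4 _ _ (by rw [a4]; norm_num) (by rw [a4]; norm_num)
  have d1 := U.deg (5 + 4 * k) 1 (U.hV (5 + 4 * k) 2 b1).2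
  have d2 := U.deg (5 + 4 * k + 1) 1 (U.hV (5 + 4 * k + 2) 2 b2).1
  simp only [Nat.reduceAdd] at d1 d2
  rw [show 5 + 4 * k + 0 = 5 + 4 * k from rfl] at b1
  rw [b1, b3] at d1
  rw [show 5 + 4 * k + 1 + 1 = 5 + 4 * k + 2 from rfl, b2, b4] at d2
  simp only [Bool.toNat_true, Bool.toNat_false] at d1 d2
  omega

theorem cls_kind_cross {i : ℕ} (hd : sg s k = some (v, true)) (h : i < v) :
    kind (sg s k) i = .cross := by
  rw [hd]
  simp only [kind]
  rw [if_neg (by omega), if_pos ⟨trivial, h⟩]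

theorem cls_kind_dblk (hd : sg s k = some (v, true)) : kind (sg s k) v = .dblk := by
  rw [hd]
  simp [kind]

theorem cls_hC_strand (hd : sg s k = some (v, true)) (hv : v < 2 * M + 1) {l j : ℕ}
    (hl : l ≤ 3 * v) (hj : j = 0 ∨ j = 2) : hN s M T (5 + 4 * k + j) (3 + 2 * l) = 0 := by
  have hk : k < s.length := cls_lt_of_sg (by rw [hd]; simp)
  rcases l with _ | m
  · rcases hj with rfl | rfl
    · rw [cls_hC_top hk (by norm_num) (by norm_num)]; simp
    · rw [cls_hC_top hk (by norm_num) (by norm_num)]; simp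
  · have hy : 3 + 2 * (m + 1) = 4 + 6 * (m / 3) + (2 * (m % 3) + 1) := by omega
    rw [hy, cls_hC_cell hk (by omega) (by omega) (by omega), cls_kind_cross hd (by omega)]
    have ht : m % 3 = 0 ∨ m % 3 = 1 ∨ m % 3 = 2 := by omega
    rcases ht with ht | ht | ht <;> rcases hj with rfl | rfl <;> rw [ht] <;> rfl

theorem cls_hC_cluster (hd : sg s k = some (v, true)) (hv : v < 2 * M + 1) {m : ℕ}
    (hl : m ≤ 3 * v) : hN s M T (5 + 4 * k + 1) (4 + 2 * m) = 0 ∧
      hN s M T (5 + 4 * k + 0) (4 + 2 * m) = 4 ∧ hN s M T (5 + 4 * k + 2) (4 + 2 * m) = 4 := by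
  have hk : k < s.length := cls_lt_of_sg (by rw [hd]; simp)
  have hy : 4 + 2 * m = 4 + 6 * (m / 3) + 2 * (m % 3) := by omega
  rw [hy, cls_hC_cell hk (by omega) (by omega) (by omega), cls_hC_cell hk (by omega) (by omega) (by omega),
    cls_hC_cell hk (by omega) (by omega) (by omega)]
  rcases Nat.lt_or_ge (m / 3) v with h | h
  · rw [cls_kind_cross hd h]
    have ht : m % 3 = 0 ∨ m % 3 = 1 ∨ m % 3 = 2 := by omega
    rcases ht with ht | ht | ht <;> rw [ht] <;> exact ⟨rfl, rfl, rfl⟩
  · have h1 : m / 3 = v := by omega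
    have h2 : m % 3 = 0 := by omega
    rw [h1, h2, cls_kind_dblk hd]
    exact ⟨rfl, rfl, rfl⟩

/-- strands above the block of a docked subcolumn: the digons -/
theorem cls_strand (U : Use (hN s M T) (vN s M T) hU vU) (hd : sg s k = some (v, true))
    (hv : v < 2 * M + 1) {l : ℕ} (hl : l ≤ 3 * v) :
    (hU (5 + 4 * k + 1) (3 + 2 * l)).toNat + (vU (5 + 4 * k + 1) (2 + 2 * l)).toNat +
      (vU (5 + 4 * k + 1) (3 + 2 * l)).toNat = 1 ∧
    (hU (5 + 4 * k + 1) (3 + 2 * l)).toNat + (vU (5 + 4 * k + 2) (2 + 2 * l)).toNat +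
      (vU (5 + 4 * k + 2) (3 + 2 * l)).toNat = 1 := by
  have b1 : hU (5 + 4 * k + 0) (3 + 2 * l) = true := U.h0 _ _ (cls_hC_strand hd hv hl (Or.inl rfl))
  have b2 : hU (5 + 4 * k + 2) (3 + 2 * l) = true := U.h0 _ _ (cls_hC_strand hd hv hl (Or.inr rfl))
  have d1 := U.deg (5 + 4 * k) (2 + 2 * l) (by
    have := (U.hV _ _ b1).2
    rwa [show 3 + 2 * l = 2 + 2 * l + 1 by omega] at this)
  have d2 := U.deg (5 + 4 * k + 1) (2 + 2 * l) (by
    have := (U.hV _ _ b2).1
    rwa [show 3 + 2 * l = 2 + 2 * l + 1 by omega] at this)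
  rw [show 5 + 4 * k + 0 = 5 + 4 * k from rfl] at b1
  rw [show 2 + 2 * l + 1 = 3 + 2 * l by omega, b1] at d1
  rw [show 2 + 2 * l + 1 = 3 + 2 * l by omega, show 5 + 4 * k + 1 + 1 = 5 + 4 * k + 2 from rfl,
    b2] at d2
  simp only [Bool.toNat_true] at d1 d2
  omega

/-- clusters above the block of a docked subcolumn -/
theorem cls_cluster (U : Use (hN s M T) (vN s M T) hU vU) (hd : sg s k = some (v, true))
    (hv : v < 2 * M + 1) {m : ℕ} (hl : m ≤ 3 * v) :
    (vU (5 + 4 * k + 1) (3 + 2 * m)).toNat + (vU (5 + 4 * k + 1) (4 + 2 * m)).toNat = 1 ∧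
    (vU (5 + 4 * k + 2) (3 + 2 * m)).toNat + (vU (5 + 4 * k + 2) (4 + 2 * m)).toNat = 1 := by
  obtain ⟨a1, a2, a3⟩ := cls_hC_cluster (M := M) hd hv hl
  have b1 : hU (5 + 4 * k + 1) (4 + 2 * m) = true := U.h0 _ _ a1
  have b2 : hU (5 + 4 * k + 0) (4 + 2 * m) = false :=
    U.h4 _ _ (by rw [a2]; norm_num) (by rw [a2]; norm_num)
  have b3 : hU (5 + 4 * k + 2) (4 + 2 * m) = false :=
    U.h4 _ _ (by rw [a3]; norm_num) (by rw [a3]; norm_num)
  have d1 := U.deg (5 + 4 * k) (3 + 2 * m) (by
    have := (U.hV _ _ b1).1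
    rwa [show 4 + 2 * m = 3 + 2 * m + 1 by omega] at this)
  have d2 := U.deg (5 + 4 * k + 1) (3 + 2 * m) (by
    have := (U.hV _ _ b1).2
    rwa [show 4 + 2 * m = 3 + 2 * m + 1 by omega] at this)
  rw [show 5 + 4 * k + 0 = 5 + 4 * k from rfl] at b2
  rw [show 3 + 2 * m + 1 = 4 + 2 * m by omega, b1, b2] at d1
  rw [show 3 + 2 * m + 1 = 4 + 2 * m by omega, show 5 + 4 * k + 1 + 1 = 5 + 4 * k + 2 from rfl,
    b1, b3] at d2
  simp only [Bool.toNat_true, Bool.toNat_false] at d1 d2
  omega

/-- PARITY LEMMA: at a docked subcolumn (`c = 6 + 4 k`) whose block lies in row `v`, the two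
vertical edges above the level `l ≤ 3 v + 1` are both used or both unused -/
theorem cls_parity (U : Use (hN s M T) (vN s M T) hU vU) (hd : sg s k = some (v, true))
    (hv : v < 2 * M + 1) {l : ℕ} (hl : l ≤ 3 * v + 1) :
    vU (6 + 4 * k) (2 + 2 * l) = vU (7 + 4 * k) (2 + 2 * l) := by
  rw [show 6 + 4 * k = 5 + 4 * k + 1 by omega, show 7 + 4 * k = 5 + 4 * k + 2 by omega]
  induction l with
  | zero =>
    have h := cls_ring_dock U hd
    simp only [Nat.mul_zero, Nat.add_zero]
    have h3 : (vU (5 + 4 * k + 1) 2).toNat = (vU (5 + 4 * k + 2) 2).toNat := by omega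
    exact cls_toNat_inj h3
  | succ l ih =>
    have h1 := ih (by omega)
    have h2 := cls_strand U hd hv (show l ≤ 3 * v by omega)
    have h3 := cls_cluster U hd hv (show l ≤ 3 * v by omega)
    have h4 : (vU (5 + 4 * k + 1) (4 + 2 * l)).toNat = (vU (5 + 4 * k + 2) (4 + 2 * l)).toNat := by
      rw [h1] at h2
      omega
    rw [show 2 + 2 * (l + 1) = 4 + 2 * l by omega]
    exact cls_toNat_inj h4

/-- also the edges below a level -/
theorem cls_parity' (U : Use (hN s M T) (vN s M T) hU vU) (hd : sg s k = some (v, true))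
    (hv : v < 2 * M + 1) {l : ℕ} (hl : l ≤ 3 * v) :
    vU (6 + 4 * k) (3 + 2 * l) = vU (7 + 4 * k) (3 + 2 * l) := by
  have h1 := cls_parity U hd hv (show l ≤ 3 * v + 1 by omega)
  rw [show 6 + 4 * k = 5 + 4 * k + 1 by omega, show 7 + 4 * k = 5 + 4 * k + 2 by omega] at h1 ⊢
  have h2 := cls_strand U hd hv hl
  rw [h1] at h2
  apply cls_toNat_inj
  omega

/-- the descent: if the ring uses the dock then the block is in state `true` -/
theorem cls_sigma_of_dock (U : Use (hN s M T) (vN s M T) hU vU) (hd : sg s k = some (v, true))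
    (hv : v < 2 * M + 1) (h : vU (6 + 4 * k) 2 = true) : sigma vU v k = true := by
  have hk : k < s.length := cls_lt_of_sg (by rw [hd]; simp)
  rw [show 6 + 4 * k = 5 + 4 * k + 1 by omega] at h
  have key : ∀ l, l ≤ 3 * v + 1 → vU (5 + 4 * k + 1) (2 + 2 * l) = true := by
    intro l
    induction l with
    | zero => intro _; exact h
    | succ l ih =>
      intro hl
      have h1 := ih (by omega)
      have h2 := (cls_strand U hd hv (show l ≤ 3 * v by omega)).1
      have h3 := (cls_cluster U hd hv (show l ≤ 3 * v by omega)).1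
      rw [h1] at h2
      rw [show 2 + 2 * (l + 1) = 4 + 2 * l by omega]
      rcases hb : vU (5 + 4 * k + 1) (4 + 2 * l) with _ | _
      · rw [hb] at h3
        simp only [Bool.toNat_true, Bool.toNat_false] at h2 h3
        omega
      · rfl
  have hup := key (3 * v + 1) le_rfl
  rw [show 2 + 2 * (3 * v + 1) = 4 + 6 * v by omega] at hup
  -- the vertex b1
  have a1 : hN s M T (5 + 4 * k + 0) (4 + 6 * v + 1) = 0 := by
    rw [cls_hC_cell hk hv (by norm_num) (by norm_num), cls_kind_dblk hd]; rfl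
  have b1 : hU (5 + 4 * k + 0) (4 + 6 * v + 1) = true := U.h0 _ _ a1
  have d1 := U.deg (5 + 4 * k) (4 + 6 * v) (U.hV _ _ b1).2
  rw [show 5 + 4 * k + 0 = 5 + 4 * k from rfl] at b1
  rw [b1, hup] at d1
  have e1 : vU (5 + 4 * k + 1) (4 + 6 * v + 1) = false := by
    rcases hb : vU (5 + 4 * k + 1) (4 + 6 * v + 1) with _ | _
    · rfl
    · rw [hb] at d1
      simp only [Bool.toNat_true] at d1
      omega
  -- the vertex b2
  have a2 : hN s M T (5 + 4 * k + 0) (4 + 6 * v + 2) = 0 := by
    rw [cls_hC_cell hk hv (by norm_num) (by norm_num), cls_kind_dblk hd]; rfl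
  have a3 : hN s M T (5 + 4 * k + 1) (4 + 6 * v + 2) = 4 := by
    rw [cls_hC_cell hk hv (by norm_num) (by norm_num), cls_kind_dblk hd]; rfl
  have b2 : hU (5 + 4 * k + 0) (4 + 6 * v + 2) = true := U.h0 _ _ a2
  have b3 : hU (5 + 4 * k + 1) (4 + 6 * v + 2) = false :=
    U.h4 _ _ (by rw [a3]; norm_num) (by rw [a3]; norm_num)
  have d2 := U.deg (5 + 4 * k) (4 + 6 * v + 1) (U.hV _ _ b2).2
  rw [show 5 + 4 * k + 0 = 5 + 4 * k from rfl] at b2
  rw [show 4 + 6 * v + 1 + 1 = 4 + 6 * v + 2 from rfl, b2, b3, e1] at d2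
  unfold sigma
  rw [show 6 + 4 * k = 5 + 4 * k + 1 by omega, show 6 + 6 * v = 4 + 6 * v + 2 by omega]
  rcases hb : vU (5 + 4 * k + 1) (4 + 6 * v + 2) with _ | _
  · rw [hb] at d2
    simp at d2
  · rfl

end Use


theorem st_CLS : ST_CLS := by
  intro s M T hU vU hs U k n hk hkl hmid hend
  -- subcolumns of the clause
  have hlt : ∀ l, k ≤ l → l ≤ k + n → l < s.length := by
    intro l h1 h2
    rcases Nat.eq_or_lt_of_le h1 with h | h
    · rw [← h]; exact hkl
    · exact cls_lt_of_sg (hmid l h h2)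
  by_cases hex : ∃ l i, k < l ∧ l ≤ k + n ∧ sg s l = some (i, true) ∧
      (vU (6 + 4 * l) 2 = true ∨ vU (7 + 4 * l) 2 = true)
  · obtain ⟨l, i, h1, h2, h3, h4⟩ := hex
    refine ⟨l, i, h1, h2, h3, ?_⟩
    have hi := hs l i true h3
    have hp := cls_parity U h3 hi (Nat.zero_le _)
    apply cls_sigma_of_dock U h3 hi
    rcases h4 with h4 | h4
    · exact h4
    · rw [show 2 + 2 * 0 = 2 from rfl] at hp
      rw [hp]; exact h4
  exfalso
  -- the ring is closed
  let S : Pt → Prop := fun a => (5 + 4 * k ≤ a.1 ∧ a.1 ≤ 8 + 4 * (k + n)) ∧ (1 ≤ a.2 ∧ a.2 ≤ 2)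
  have hS1 : ∀ x y, hU x y = true → (S (x, y) ↔ S (x + 1, y)) := by
    intro x y hxy
    simp only [S]
    by_cases hy : 1 ≤ y ∧ y ≤ 2
    · have hc : hN s M T x y = 0 ∨ hN s M T x y = 2 := by
        by_contra hcon
        rw [not_or] at hcon
        have := U.h4 x y hcon.1 hcon.2
        rw [this] at hxy
        exact Bool.noConfusion hxy
      have h1 : x ≠ 4 + 4 * k := by
        rintro rfl
        rcases k with _ | k
        · have : hN s M T 4 y = 4 := by
            rw [hN_old (by omega)]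
            simp only [hC, hT]
            rw [if_pos (by omega), if_pos (by omega), if_neg (by omega)]
          rw [show 4 + 4 * 0 = 4 from rfl, this] at hc
          omega
        · have hk' : k < s.length := by omega
          rw [show 4 + 4 * (k + 1) = 5 + 4 * k + 3 by omega,
            cls_hC_top hk' (by norm_num) (by omega)] at hc
          rw [if_neg (by omega), if_neg (by omega), if_pos ⟨rfl, hk⟩] at hc
          omega
      have h2 : x ≠ 8 + 4 * (k + n) := by
        rintro rfl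
        rw [show 8 + 4 * (k + n) = 5 + 4 * (k + n) + 3 by omega,
          cls_hC_top (hlt (k + n) (by omega) le_rfl) (by norm_num) (by omega)] at hc
        rw [if_neg (by omega), if_neg (by omega), if_pos ⟨rfl, hend⟩] at hc
        omega
      constructor
      · rintro ⟨_, _⟩
        exact ⟨by omega, by omega⟩
      · rintro ⟨_, _⟩
        exact ⟨by omega, by omega⟩
    · constructor <;> exact fun h => absurd h.2 hy
  have hS2 : ∀ x y, vU x y = true → (S (x, y) ↔ S (x, y + 1)) := by
    intro x y hxy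
    simp only [S]
    have hc : vN s M T x y = 0 ∨ vN s M T x y = 2 := by
      by_contra hcon
      rw [not_or] at hcon
      have := U.v4 x y hcon.1 hcon.2
      rw [this] at hxy
      exact Bool.noConfusion hxy
    by_cases hx : 5 + 4 * k ≤ x ∧ x ≤ 8 + 4 * (k + n)
    · obtain ⟨l, j, hj, rfl⟩ : ∃ l j, j < 4 ∧ x = 5 + 4 * l + j :=
        ⟨(x - 5) / 4, (x - 5) % 4, by omega, by omega⟩
      have hl : l < s.length := hlt l (by omega) (by omega)
      have h0 : y ≠ 0 := by
        rintro rfl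
        rw [cls_vC_top hl hj (by norm_num), if_pos rfl] at hc
        omega
      have h2 : y ≠ 2 := by
        rintro rfl
        rw [cls_vC_top hl hj (by norm_num), if_neg (by omega), if_neg (by omega)] at hc
        have hj2 : (j = 1 ∨ j = 2) ∧ dock (sg s l) = true := by
          by_contra hcon
          rw [if_neg hcon] at hc
          omega
        obtain ⟨i, hi⟩ : ∃ i, sg s l = some (i, true) := by
          rcases ho : sg s l with _ | ⟨i, b⟩
          · rw [ho] at hj2
            exact absurd hj2.2 (by simp [dock])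
          · rcases b with _ | _
            · rw [ho] at hj2
              exact absurd hj2.2 (by simp [dock])
            · exact ⟨i, rfl⟩
        have hkl' : l ≠ k := by
          rintro rfl
          rw [hk] at hi
          exact absurd hi (by simp)
        apply hex
        refine ⟨l, i, by omega, by omega, hi, ?_⟩
        rcases hj2.1 with rfl | rfl
        · left
          rwa [show 6 + 4 * l = 5 + 4 * l + 1 by omega]
        · right
          rwa [show 7 + 4 * l = 5 + 4 * l + 2 by omega]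
      constructor
      · rintro ⟨_, _⟩
        exact ⟨hx, by omega⟩
      · rintro ⟨_, _⟩
        exact ⟨hx, by omega⟩
    · constructor <;> exact fun h => absurd h.1 hx
  have hv1 : Vert (hN s M T) (vN s M T) (5 + 4 * k, 1) := by
    right; right; left
    have := cls_vC_top (M := M) (T := T) (j := 0) (y := 1) hkl (by norm_num) (by norm_num)
    rw [if_neg (by omega), if_pos rfl, if_pos ⟨rfl, hk⟩] at this
    exact this
  have hv2 : Vert (hN s M T) (vN s M T) (1, 3) := by
    left
    simp only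
    rw [hN_old (by omega)]
    simp [hC, hT]
  have h := U.cut S hS1 hS2 (5 + 4 * k, 1) (1, 3) hv1 hv2 ⟨by simp only; omega, by simp only; omega⟩
  have := h.2.2
  simp only at this
  omega

end Pool.Agent.Helper96.SE
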